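import Pool.Agent.H49.TRN.S1

/-! Board `trn`, row PEL: peeling of rows. -/

set_option autoImplicit false

namespace Pool.TRN

open MvPolynomial Pool.FOS

namespace P97

theorem ev_mul (a : ℕ × ℕ) (q r : MvPolynomial (Fin 2) ℂ) : ev a (q * r) = ev a q * ev a r := by
  unfold ev
  rw [eval_mul]

/-- The linear form which vanishes on a row. -/
noncomputable def ell (p v : ℕ) : MvPolynomial (Fin 2) ℂ := C (p : ℂ) * X 0 + X 1 - C (v : ℂ)

theorem ell_deg (p v : ℕ) : (ell p v).totalDegree ≤ 1 := by
  unfold ell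
  refine (totalDegree_sub _ _).trans (max_le ((totalDegree_add _ _).trans (max_le ?_ ?_)) ?_)
  · refine (totalDegree_mul _ _).trans ?_
    rw [totalDegree_C, totalDegree_X]
  · rw [totalDegree_X]
  · rw [totalDegree_C]
    exact Nat.zero_le _

theorem ev_ell (p v : ℕ) (a : ℕ × ℕ) : ev a (ell p v) = ((p * a.1 + a.2 : ℕ) : ℂ) - v := by
  unfold ev ell
  simp

theorem one_row (p v : ℕ) (R : Finset (ℕ × ℕ)) (hR : ∀ a ∈ R, p * a.1 + a.2 = v)
    (c : ℕ × ℕ → ℂ)
    (h : ∀ q : MvPolynomial (Fin 2) ℂ, q.totalDegree < R.card → ∑ a ∈ R, c a * ev a q = 0) :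
    ∀ a ∈ R, c a = 0 := by
  classical
  intro a ha
  have hinj : ∀ b ∈ R, b ≠ a → ((a.1 : ℂ) - b.1) ≠ 0 := by
    intro b hb hba h1
    apply hba
    have h2 : a.1 = b.1 := by
      have : (a.1 : ℂ) = b.1 := sub_eq_zero.1 h1
      exact_mod_cast this
    have h3 := hR a ha
    have h4 := hR b hb
    rw [h2] at h3
    exact Prod.ext h2.symm (by omega)
  have h1 := h (∏ b ∈ R.erase a, (X 0 - C (b.1 : ℂ))) (by
    refine lt_of_le_of_lt (totalDegree_finsetProd _ _) ?_
    have h2 : ∀ b ∈ R.erase a, (X 0 - C (b.1 : ℂ) : MvPolynomial (Fin 2) ℂ).totalDegree ≤ 1 := by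
      intro b _
      refine (totalDegree_sub _ _).trans (max_le ?_ ?_)
      · rw [totalDegree_X]
      · rw [totalDegree_C]
        exact Nat.zero_le _
    refine lt_of_le_of_lt (Finset.sum_le_sum h2) ?_
    rw [Finset.sum_const, smul_eq_mul, mul_one, Finset.card_erase_of_mem ha]
    have := Finset.card_pos.2 ⟨a, ha⟩
    omega)
  have hev : ∀ b : ℕ × ℕ, ev b (∏ b ∈ R.erase a, (X 0 - C (b.1 : ℂ))) =
      ∏ b' ∈ R.erase a, ((b.1 : ℂ) - b'.1) := by
    intro b
    unfold ev
    rw [eval_prod]
    refine Finset.prod_congr rfl fun b' _ => ?_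
    simp
  rw [Finset.sum_eq_single a] at h1
  · rw [hev] at h1
    rcases mul_eq_zero.1 h1 with h2 | h2
    · exact h2
    · exfalso
      rw [Finset.prod_eq_zero_iff] at h2
      obtain ⟨b, hb, hb2⟩ := h2
      rw [Finset.mem_erase] at hb
      exact hinj b hb.2 hb.1 hb2
  · intro b hb hba
    rw [hev, Finset.prod_eq_zero (Finset.mem_erase.2 ⟨hba, hb⟩) (sub_self _), mul_zero]
  · intro h2
    exact absurd ha h2

theorem aux (p : ℕ) : ∀ (m : ℕ) (D : Finset (ℕ × ℕ)) (f : ℕ → ℕ),
    (∀ a ∈ D, (D.filter fun b => p * b.1 + b.2 = p * a.1 + a.2).card + f (p * a.1 + a.2) ≤ m) →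
    (∀ a ∈ D, ∀ b ∈ D, f (p * a.1 + a.2) = f (p * b.1 + b.2) →
      p * a.1 + a.2 = p * b.1 + b.2) → ∀ c : ℕ × ℕ → ℂ,
    (∀ q : MvPolynomial (Fin 2) ℂ, q.totalDegree < m → ∑ a ∈ D, c a * ev a q = 0) →
    ∀ a ∈ D, c a = 0
  | 0, D, f, h1, _, c, _, a, ha => by
    have h := h1 a ha
    have h2 : 0 < (D.filter fun b => p * b.1 + b.2 = p * a.1 + a.2).card :=
      Finset.card_pos.2 ⟨a, Finset.mem_filter.2 ⟨ha, rfl⟩⟩
    omega
  | m + 1, D, f, h1, h2, c, hc, a, ha => by
    classical
    by_cases h0 : ∃ a₀ ∈ D, f (p * a₀.1 + a₀.2) = 0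
    · obtain ⟨a₀, ha₀, hf₀⟩ := h0
      obtain ⟨v, hv⟩ : ∃ v, v = p * a₀.1 + a₀.2 := ⟨_, rfl⟩
      rw [← hv] at hf₀
      obtain ⟨D', hD'⟩ : ∃ D', D' = D.filter fun b => p * b.1 + b.2 ≠ v := ⟨_, rfl⟩
      have hpos : ∀ b ∈ D', 1 ≤ f (p * b.1 + b.2) := by
        intro b hb
        rw [hD', Finset.mem_filter] at hb
        by_contra hcon
        have e : f (p * b.1 + b.2) = f (p * a₀.1 + a₀.2) := by rw [← hv]; omega
        have := h2 b hb.1 a₀ ha₀ e
        exact hb.2 (this.trans hv.symm)
      have hrow : ∀ b ∈ D', (D'.filter fun b' => p * b'.1 + b'.2 = p * b.1 + b.2).card ≤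
          (D.filter fun b' => p * b'.1 + b'.2 = p * b.1 + b.2).card := by
        intro b _
        refine Finset.card_le_card ?_
        rw [hD']
        exact Finset.filter_subset_filter _ (Finset.filter_subset _ _)
      have ih := aux p m D' (fun v => f v - 1) (by
        intro b hb
        have x1 := hrow b hb
        have x2 := hpos b hb
        have hbD : b ∈ D := by rw [hD', Finset.mem_filter] at hb; exact hb.1
        have x3 := h1 b hbD
        show _ + (f (p * b.1 + b.2) - 1) ≤ m
        omega) (by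
        intro b hb b' hb' e
        have x2 := hpos b hb
        have x3 := hpos b' hb'
        have hbD : b ∈ D := by rw [hD', Finset.mem_filter] at hb; exact hb.1
        have hbD' : b' ∈ D := by rw [hD', Finset.mem_filter] at hb'; exact hb'.1
        refine h2 b hbD b' hbD' ?_
        have e' : f (p * b.1 + b.2) - 1 = f (p * b'.1 + b'.2) - 1 := e
        omega) (fun b => c b * (((p * b.1 + b.2 : ℕ) : ℂ) - v)) (by
        intro q hq
        have x1 := hc (ell p v * q) (by
          refine lt_of_le_of_lt (totalDegree_mul _ _) ?_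
          have := ell_deg p v
          omega)
        rw [← x1, hD', Finset.sum_filter]
        refine Finset.sum_congr rfl fun b _ => ?_
        rw [ev_mul, ev_ell]
        split_ifs with h3
        · ring
        · rw [not_not] at h3
          rw [h3, sub_self, zero_mul, mul_zero])
      have hcD' : ∀ b ∈ D', c b = 0 := by
        intro b hb
        rcases mul_eq_zero.1 (ih b hb) with x1 | x1
        · exact x1
        · exfalso
          rw [hD', Finset.mem_filter] at hb
          apply hb.2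
          have : ((p * b.1 + b.2 : ℕ) : ℂ) = (v : ℂ) := sub_eq_zero.1 x1
          exact_mod_cast this
      by_cases hav : p * a.1 + a.2 = v
      · obtain ⟨R, hR⟩ : ∃ R, R = D.filter fun b => p * b.1 + b.2 = v := ⟨_, rfl⟩
        have hRc : R.card ≤ m + 1 := by
          have x1 := h1 a₀ ha₀
          rw [← hv, ← hR] at x1
          omega
        refine one_row p v R (fun b hb => by
          rw [hR, Finset.mem_filter] at hb
          exact hb.2) c (fun q hq => ?_) a (by
          rw [hR, Finset.mem_filter]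
          exact ⟨ha, hav⟩)
        rw [← hc q (lt_of_lt_of_le hq hRc), hR, Finset.sum_filter]
        refine Finset.sum_congr rfl fun b hb => ?_
        split_ifs with h3
        · rfl
        · rw [hcD' b (by rw [hD', Finset.mem_filter]; exact ⟨hb, h3⟩), zero_mul]
      · exact hcD' a (by rw [hD', Finset.mem_filter]; exact ⟨ha, hav⟩)
    · push Not at h0
      refine aux p m D (fun v => f v - 1) ?_ ?_ c (fun q hq => hc q (by omega)) a ha
      · intro b hb
        have x1 := h1 b hb
        have x2 := h0 b hb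
        show _ + (f (p * b.1 + b.2) - 1) ≤ m
        omega
      · intro b hb b' hb' e
        have x2 := h0 b hb
        have x3 := h0 b' hb'
        have e' : f (p * b.1 + b.2) - 1 = f (p * b'.1 + b'.2) - 1 := e
        exact h2 b hb b' hb' (by omega)

end P97

theorem t_pel : PELStmt := by
  intro m p D f h1 h2
  refine ⟨fun _ => (1, 1), fun c hc => P97.aux p m D f h1 h2 c fun q hq => ?_⟩
  rw [← hc 0 q hq]
  refine Finset.sum_congr rfl fun a _ => ?_
  simp

end Pool.TRN
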