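import Pool.Agent.H49.TRN.S1
import Pool.Agent.H49.FOS.S1

/-! Board `trn`, row RES: assembly. -/

set_option autoImplicit false

namespace Pool.TRN

open MvPolynomial Pool.FOS

theorem t_res (h_trg : TRGStmt) (h_vnt : VNTStmt) (h_ong : ONGStmt) (h_ter : Pool.FOS.TERStmt)
    (h_low : LOWStmt) (h_cnt : CNTStmt) (h_nma : NMAStmt) (h_nmb : NMBStmt) (h_mon : MONStmt) :
    RESStmt := by
  intro k d hk hd
  -- from the triangle to the general form
  have hgen : ∀ s : ℕ, Cov (d + 1) s (Tri (k * d)) → GenLe 3 k d s := by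
    intro s hs
    obtain ⟨P, hP⟩ := h_vnt (d + 1) s (k * d) hs
    exact h_ter 3 k d s (by omega) (h_ong 1 k d s P (by omega) hP)
  have hB : ∀ q : ℕ, k ≤ d + 2 → q < k → 2 * q * d ≤ (k - 1 - q) * (3 * k - q) →
      GenLe 3 k d (k ^ 2 - 2 * q) := by
    intro q hkd hq hqd
    obtain ⟨h1, h2, h3⟩ := h_nma k d q (by omega) hkd hq hqd
    rw [← h3]
    exact hgen _ (h_trg d (d + 2 - k) (k * d) (k - 1) (k - 1 - q) (by omega) h1 h2)
  refine ⟨?_, hB, ?_, ?_⟩
  · intro h K P hh h1 h2
    refine hgen _ (h_trg d h (k * d) K P hh h1 ?_)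
    unfold aa
    have e : d + 2 + (d + 1 - h) = 2 * d + 3 - h := by omega
    rw [e]
    omega
  · intro s h6 hs
    obtain ⟨q, hq, hqd, hqs⟩ := h_nmb k d s (by omega) h6 hs
    have hkd : k ≤ d := by
      by_contra hcon
      have h1 : d < k := by omega
      have h2 : d * d < k * k := Nat.mul_self_lt_mul_self h1
      have h3 : k * k ≤ k ^ 3 := by
        have : k ^ 3 = k * k * k := by ring
        rw [this]
        exact Nat.le_mul_of_pos_right _ (by omega)
      have h4 : d ^ 2 = d * d := by ring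
      omega
    exact h_mon 3 k d _ _ (by omega) hqs (hB q (by omega) hq hqd)
  · intro s hs
    refine h_low 3 k d s ?_
    have c1 := h_cnt d
    have c2 := h_cnt (k * d)
    have h1 : 2 * (s * Nat.card {m : Fin 3 →₀ ℕ // m.degree = d}) =
        s * ((d + 1) * (d + 2)) := by
      rw [← c1]
      ring
    rw [← c2, ← h1] at hs
    omega

end Pool.TRN
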